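import Pool.Agent.Helper42_UR.MAINGF

/-!
COEF: the numbers `u(m, n)` in terms of the numbers of pairs of partitions.
-/

set_option autoImplicit false

namespace Pool.Agent.Helper21_UR.H42

open Complex MeasureTheory Filter Topology Pool.Agent.Helper21_UR

/-- shifted series -/
theorem shift_hasSum {α : Type} [AddCommMonoid α] [TopologicalSpace α] {b : ℕ → α} {s : α}
    (e : ℕ) (f : ℕ → α) (h0 : ∀ n, n < e → f n = 0) (h1 : ∀ n, f (n + e) = b n)
    (hb : HasSum b s) : HasSum f s := by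
  have hi : Function.Injective fun n : ℕ => n + e := add_left_injective e
  rw [← hi.hasSum_iff]
  · have : (f ∘ fun n : ℕ => n + e) = b := funext h1
    rw [this]; exact hb
  · intro n hn
    apply h0
    by_contra hc
    push Not at hc
    exact hn ⟨n - e, Nat.sub_add_cancel hc⟩

/-- the exponents -/
def Ex (m k j : ℕ) : ℕ := (k + 1) * (m + 1) + k * (k + 1) / 2 + j * (j + 1) / 2 + 2 * j * (k + 1)

theorem Ex_ge (m k j : ℕ) : k + 1 + j ≤ Ex m k j := by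
  unfold Ex
  have := tri_ge j
  have h2 : k + 1 ≤ (k + 1) * (m + 1) := Nat.le_mul_of_pos_right _ (by omega)
  omega

/-- a shifted coefficient -/
noncomputable def gg (p2 : ℕ → ℤ) (q : ℂ) (e n : ℕ) : ℂ :=
  ((if e ≤ n then p2 (n - e) else 0 : ℤ) : ℂ) * q ^ n

theorem gg_hasSum {p2 : ℕ → ℤ} {q s : ℂ} (h : HasSum (fun n : ℕ => (p2 n : ℂ) * q ^ n) s) (e : ℕ) :
    HasSum (gg p2 q e) (q ^ e * s) := by
  apply shift_hasSum e _ _ _ (h.mul_left (q ^ e))
  · intro n hn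
    unfold gg
    rw [if_neg (by omega)]
    simp
  · intro n
    unfold gg
    rw [if_pos (by omega), Nat.add_sub_cancel, pow_add]
    ring

theorem gg_norm_hasSum {p2 : ℕ → ℤ} {q : ℂ} {s : ℝ}
    (h : HasSum (fun n : ℕ => ‖(p2 n : ℂ) * q ^ n‖) s) (e : ℕ) :
    HasSum (fun n => ‖gg p2 q e n‖) (‖q‖ ^ e * s) := by
  apply shift_hasSum e _ _ _ (h.mul_left (‖q‖ ^ e))
  · intro n hn
    unfold gg
    rw [if_neg (by omega)]
    simp
  · intro n
    unfold gg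
    rw [if_pos (by omega), Nat.add_sub_cancel, pow_add, norm_mul, norm_mul, norm_mul, norm_pow q e]
    ring

theorem gg_summable {p2 : ℕ → ℤ} {q : ℂ} (hq : ‖q‖ < 1) {s : ℝ}
    (h : HasSum (fun n : ℕ => ‖(p2 n : ℂ) * q ^ n‖) s) (hs : 0 ≤ s) (e : ℕ × ℕ → ℕ)
    (he : ∀ x : ℕ × ℕ, x.1 + x.2 ≤ e x) :
    Summable fun p : (ℕ × ℕ) × ℕ => ‖gg p2 q (e p.1) p.2‖ := by
  rw [summable_prod_of_nonneg (fun _ => norm_nonneg _)]
  refine ⟨fun x => (gg_norm_hasSum h (e x)).summable, ?_⟩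
  have h1 : (fun x : ℕ × ℕ => ∑' n, ‖gg p2 q (e (x, n).1) (x, n).2‖)
      = fun x => ‖q‖ ^ (e x) * s := by
    funext x
    exact (gg_norm_hasSum h (e x)).tsum_eq
  rw [h1]
  have h2 : Summable fun x : ℕ × ℕ => (‖q‖ ^ x.1 * ‖q‖ ^ x.2) * s := by
    apply Summable.mul_right
    exact Summable.mul_of_nonneg (summable_geometric_of_lt_one (norm_nonneg _) hq)
      (summable_geometric_of_lt_one (norm_nonneg _) hq)
      (fun _ => by positivity) (fun _ => by positivity)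
  apply Summable.of_nonneg_of_le (fun x => by positivity) _ h2
  intro x
  rw [← pow_add]
  exact mul_le_mul_of_nonneg_right (pow_le_pow_of_le_one (norm_nonneg _) hq.le (he x)) hs

/-- the coefficients -/
noncomputable def cc (p2 : ℕ → ℤ) (m n : ℕ) : ℤ :=
  ∑ k ∈ Finset.range (n + 1), ∑ j ∈ Finset.range (n + 1), (-1) ^ (k + j) *
    ((if Ex m k j ≤ n then p2 (n - Ex m k j) else 0) -
      (if Ex m k j + (k + 1) ≤ n then p2 (n - (Ex m k j + (k + 1))) else 0))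

theorem cc_hasSum {p2 : ℕ → ℤ} {q : ℂ} (hq : ‖q‖ < 1)
    (h : HasSum (fun n : ℕ => (p2 n : ℂ) * q ^ n) ((QP q)⁻¹ ^ 2)) (m : ℕ) :
    HasSum (fun n : ℕ => (cc p2 m n : ℂ) * q ^ n) ((QP q)⁻¹ ^ 2 * Th q (m + 1)) := by
  have hn : Summable (fun n : ℕ => ‖(p2 n : ℂ) * q ^ n‖) := summable_norm_iff.2 h.summable
  have hn0 : 0 ≤ ∑' n : ℕ, ‖(p2 n : ℂ) * q ^ n‖ := tsum_nonneg fun _ => norm_nonneg _
  have s1 := gg_summable hq hn.hasSum hn0 (fun x => Ex m x.1 x.2) (fun x => by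
    have := Ex_ge m x.1 x.2
    omega)
  have s2 := gg_summable hq hn.hasSum hn0 (fun x => Ex m x.1 x.2 + (x.1 + 1)) (fun x => by
    have := Ex_ge m x.1 x.2
    omega)
  set F : (ℕ × ℕ) × ℕ → ℂ := fun p => (-1) ^ (p.1.1 + p.1.2) *
    (gg p2 q (Ex m p.1.1 p.1.2) p.2 - gg p2 q (Ex m p.1.1 p.1.2 + (p.1.1 + 1)) p.2) with hF
  have hFs : Summable F := by
    apply Summable.of_norm_bounded (s1.add s2)
    rintro ⟨⟨k, j⟩, n⟩
    rw [hF]
    simp only
    rw [norm_mul, norm_pow, norm_neg, norm_one, one_pow, one_mul]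
    exact norm_sub_le _ _
  have hrow : ∀ x : ℕ × ℕ, HasSum (fun n => F (x, n)) ((-1) ^ (x.1 + x.2) *
      (q ^ (Ex m x.1 x.2) * (QP q)⁻¹ ^ 2 - q ^ (Ex m x.1 x.2 + (x.1 + 1)) * (QP q)⁻¹ ^ 2)) :=
    fun x => ((gg_hasSum h _).sub (gg_hasSum h _)).mul_left _
  have hH := hFs.hasSum.prod_fiberwise hrow
  have hk : ∀ k : ℕ, HasSum (fun j : ℕ => (-1) ^ (k + j) *
      (q ^ (Ex m k j) * (QP q)⁻¹ ^ 2 - q ^ (Ex m k j + (k + 1)) * (QP q)⁻¹ ^ 2))
      ((QP q)⁻¹ ^ 2 * tk q (m + 1) k) := by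
    intro k
    have h1 := ((pt_summable hq (norm_pow_le_one' hq (2 * (k + 1)))).2.hasSum).mul_left
      ((QP q)⁻¹ ^ 2 * ((-1) ^ k * q ^ ((k + 1) * (m + 1) + k * (k + 1) / 2) * (1 - q ^ (k + 1))))
    have e : (QP q)⁻¹ ^ 2 * ((-1) ^ k * q ^ ((k + 1) * (m + 1) + k * (k + 1) / 2) *
        (1 - q ^ (k + 1))) * (∑' j : ℕ, (-1) ^ j * (q ^ (2 * (k + 1))) ^ j *
          q ^ (j * (j + 1) / 2)) = (QP q)⁻¹ ^ 2 * tk q (m + 1) k := by
      unfold tk pt
      ring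
    rw [e] at h1
    refine h1.congr_fun fun j => ?_
    unfold Ex
    rw [← pow_mul]
    have e1 : (k + 1) * (m + 1) + k * (k + 1) / 2 + j * (j + 1) / 2 + 2 * j * (k + 1)
        = ((k + 1) * (m + 1) + k * (k + 1) / 2) + (j * (j + 1) / 2) + (2 * (k + 1) * j) := by ring
    rw [e1]
    rw [pow_add q _ (k + 1), pow_add q _ (2 * (k + 1) * j), pow_add q _ (j * (j + 1) / 2),
      pow_add (-1 : ℂ) k j]
    ring
  have hS := hH.prod_fiberwise hk
  have hT : ∑' p, F p = (QP q)⁻¹ ^ 2 * Th q (m + 1) := by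
    rw [← hS.tsum_eq, tsum_mul_left]
    rfl
  rw [← hT]
  have hsw : HasSum (fun p : ℕ × (ℕ × ℕ) => F p.swap) (∑' p, F p) :=
    (Equiv.prodComm ℕ (ℕ × ℕ)).hasSum_iff.2 hFs.hasSum
  apply hsw.prod_fiberwise
  intro n
  have h1 : HasSum (fun x : ℕ × ℕ => F (x, n))
      (∑ x ∈ Finset.range (n + 1) ×ˢ Finset.range (n + 1), F (x, n)) := by
    apply hasSum_sum_of_ne_finset_zero
    rintro ⟨k, j⟩ hx
    have hlt : n < Ex m k j := by
      have := Ex_ge m k j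
      by_contra hc
      push Not at hc
      apply hx
      rw [Finset.mem_product, Finset.mem_range, Finset.mem_range]
      constructor
      · simp only; omega
      · simp only; omega
    rw [hF]
    simp only
    unfold gg
    rw [if_neg (by omega), if_neg (by omega)]
    simp
  have e : ∑ x ∈ Finset.range (n + 1) ×ˢ Finset.range (n + 1), F (x, n)
      = (cc p2 m n : ℂ) * q ^ n := by
    rw [Finset.sum_product]
    unfold cc
    push_cast
    rw [Finset.sum_mul]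
    apply Finset.sum_congr rfl
    intro k _
    rw [Finset.sum_mul]
    apply Finset.sum_congr rfl
    intro j _
    rw [hF]
    simp only
    unfold gg
    push_cast
    ring
  rw [e] at h1
  exact h1

theorem coef (hM : MaingfStatement) (hC : CoefintStatement) : CoefStatement := by
  intro p2 h m n _
  have h1 := hC (fun n => (u (m : ℤ) n : ℂ)) (fun q => (QP q)⁻¹ ^ 2 * Th q (m + 1))
    (fun q hq0 hq => (hM q hq0 hq).2.1 m) 1 one_pos n
  have h2 := hC (fun n => (cc p2 m n : ℂ)) (fun q => (QP q)⁻¹ ^ 2 * Th q (m + 1))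
    (fun q _ hq => cc_hasSum hq (h q hq) m) 1 one_pos n
  have h3 : (u (m : ℤ) n : ℂ) = (cc p2 m n : ℂ) := h1.trans h2.symm
  have h4 : ((u (m : ℤ) n : ℤ) : ℂ) = ((cc p2 m n : ℤ) : ℂ) := by exact_mod_cast h3
  have h5 : (u (m : ℤ) n : ℤ) = cc p2 m n := by exact_mod_cast h4
  rw [h5]
  rfl

end Pool.Agent.Helper21_UR.H42
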