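import Pool.Agent.Helper42_UR.SER

/-!
MAINGF: generating functions of the numbers `u(m, n)`.
-/

set_option autoImplicit false

namespace Pool.Agent.Helper21_UR.H42

open Complex MeasureTheory Filter Topology Pool.Agent.Helper21_UR

section

variable {q : ℂ}

theorem pt_summable (hq : ‖q‖ < 1) {z : ℂ} (hz : ‖z‖ ≤ 1) :
    (∀ j : ℕ, ‖(-1) ^ j * z ^ j * q ^ (j * (j + 1) / 2)‖ ≤ ‖q‖ ^ j) ∧
    Summable (fun j : ℕ => (-1) ^ j * z ^ j * q ^ (j * (j + 1) / 2)) := by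
  have h1 : ∀ j : ℕ, ‖(-1) ^ j * z ^ j * q ^ (j * (j + 1) / 2)‖ ≤ ‖q‖ ^ j := by
    intro j
    rw [norm_mul, norm_mul, norm_pow, norm_neg, norm_one, one_pow, one_mul, norm_pow z]
    calc ‖z‖ ^ j * ‖q ^ (j * (j + 1) / 2)‖ ≤ 1 * ‖q‖ ^ j :=
          mul_le_mul (pow_le_one₀ (norm_nonneg _) hz) (norm_pow_le hq (tri_ge j))
            (norm_nonneg _) zero_le_one
      _ = ‖q‖ ^ j := one_mul _
  exact ⟨h1, Summable.of_norm_bounded (summable_geometric_of_lt_one (norm_nonneg _) hq) h1⟩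

theorem pt_norm_le (hq : ‖q‖ < 1) {z : ℂ} (hz : ‖z‖ ≤ 1) : ‖pt q z‖ ≤ (1 - ‖q‖)⁻¹ := by
  have h1 := (pt_summable hq hz).1
  have h2 := hasSum_geometric_of_lt_one (norm_nonneg q) hq
  exact tsum_of_norm_bounded h2 h1

theorem norm_pow_le_one' (hq : ‖q‖ < 1) (n : ℕ) : ‖q ^ n‖ ≤ 1 := by
  rw [norm_pow]
  exact pow_le_one₀ (norm_nonneg _) hq.le

theorem one_sub_le (hq : ‖q‖ < 1) (n : ℕ) : ‖1 - q ^ n‖ ≤ 2 := by
  calc ‖1 - q ^ n‖ ≤ ‖(1 : ℂ)‖ + ‖q ^ n‖ := norm_sub_le _ _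
    _ ≤ 2 := by rw [norm_one]; linarith [norm_pow_le_one' hq n]

theorem tk_norm_le (hq : ‖q‖ < 1) (M k : ℕ) : ‖tk q M k‖ ≤ (2 * (1 - ‖q‖)⁻¹) * ‖q‖ ^ k := by
  have h1 : 0 ≤ (1 - ‖q‖)⁻¹ := inv_nonneg.2 (by linarith)
  unfold tk
  rw [norm_mul, norm_mul, norm_mul, norm_pow, norm_neg, norm_one, one_pow, one_mul]
  have h2 : ‖q ^ ((k + 1) * M + k * (k + 1) / 2)‖ ≤ ‖q‖ ^ k :=
    norm_pow_le hq (by have := tri_ge k; omega)
  calc ‖q ^ ((k + 1) * M + k * (k + 1) / 2)‖ * ‖1 - q ^ (k + 1)‖ * ‖pt q (q ^ (2 * (k + 1)))‖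
      ≤ ‖q‖ ^ k * 2 * (1 - ‖q‖)⁻¹ := by
        gcongr
        · exact one_sub_le hq _
        · exact pt_norm_le hq (norm_pow_le_one' hq _)
    _ = _ := by ring

theorem tk_summable (hq : ‖q‖ < 1) (M : ℕ) : Summable fun k : ℕ => ‖tk q M k‖ :=
  Summable.of_nonneg_of_le (fun _ => norm_nonneg _) (tk_norm_le hq M)
    ((summable_geometric_of_lt_one (norm_nonneg _) hq).mul_left _)

/-- summation of the partial fractions -/
theorem gen (hq : ‖q‖ < 1) (w : ℕ → ℂ) (hw : ∀ i, ‖w i * q ^ (i + 1)‖ ≤ 1) :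
    HasSum (fun c : ℕ => q ^ (c + 1) * ∑ i ∈ Finset.range (c + 1), Ac q (c + 1) i * w i)
      ((QP q)⁻¹ ^ 2 * ∑' i : ℕ, (-1) ^ i * q ^ (i * (i + 1) / 2) * (1 - q ^ (i + 1)) *
        (w i * q ^ (i + 1)) * pt q (q ^ (2 * (i + 1)))) := by
  obtain ⟨B, hB1, hB⟩ := inv_bdd hq
  have hB0 : 0 ≤ B := by linarith
  set f : ℕ × ℕ → ℂ := fun p => ((-1) ^ p.1 * q ^ (p.1 * (p.1 + 1) / 2) * (1 - q ^ (p.1 + 1)) *
    w p.1) * (q ^ (p.1 + 1 + p.2) / (qp q p.2 * qp q (2 * (p.1 + 1) + p.2))) with hf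
  have hbd : ∀ p : ℕ × ℕ, ‖f p‖ ≤ (2 * B * B) * (‖q‖ ^ p.1 * ‖q‖ ^ p.2) := by
    rintro ⟨i, r⟩
    have e : f (i, r) = (-1) ^ i * q ^ (i * (i + 1) / 2) * (1 - q ^ (i + 1)) *
        (w i * q ^ (i + 1)) * q ^ r * (qp q r)⁻¹ * (qp q (2 * (i + 1) + r))⁻¹ := by
      rw [hf]
      simp only
      rw [pow_add q (i + 1) r, div_eq_mul_inv, mul_inv]
      ring
    rw [e]
    simp only [norm_mul (_ : ℂ) (_ : ℂ)]
    have h0 : ‖((-1 : ℂ)) ^ i‖ = 1 := by rw [norm_pow, norm_neg, norm_one, one_pow]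
    have h1 : ‖q ^ (i * (i + 1) / 2)‖ ≤ ‖q‖ ^ i := norm_pow_le hq (tri_ge i)
    have h2 : ‖w i‖ * ‖q ^ (i + 1)‖ ≤ 1 := by rw [← norm_mul]; exact hw i
    have h3 : ‖q ^ r‖ ≤ ‖q‖ ^ r := norm_pow_le hq le_rfl
    rw [h0]
    calc 1 * ‖q ^ (i * (i + 1) / 2)‖ * ‖1 - q ^ (i + 1)‖ * (‖w i‖ * ‖q ^ (i + 1)‖) * ‖q ^ r‖ *
          ‖(qp q r)⁻¹‖ * ‖(qp q (2 * (i + 1) + r))⁻¹‖
        ≤ 1 * ‖q‖ ^ i * 2 * 1 * ‖q‖ ^ r * B * B := by
          gcongr
          · exact one_sub_le hq _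
          · exact hB _
          · exact hB _
      _ = (2 * B * B) * (‖q‖ ^ i * ‖q‖ ^ r) := by ring
  have hfs : Summable f := by
    apply Summable.of_norm_bounded _ hbd
    apply Summable.mul_left
    exact Summable.mul_of_nonneg (summable_geometric_of_lt_one (norm_nonneg _) hq)
      (summable_geometric_of_lt_one (norm_nonneg _) hq)
      (fun _ => by positivity) (fun _ => by positivity)
  have hrow : ∀ i, HasSum (fun r => f (i, r)) ((QP q)⁻¹ ^ 2 *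
      ((-1) ^ i * q ^ (i * (i + 1) / 2) * (1 - q ^ (i + 1)) *
        (w i * q ^ (i + 1)) * pt q (q ^ (2 * (i + 1))))) := by
    intro i
    have h1 := (ser q hq i).mul_left ((-1) ^ i * q ^ (i * (i + 1) / 2) * (1 - q ^ (i + 1)) * w i)
    have e : ((-1) ^ i * q ^ (i * (i + 1) / 2) * (1 - q ^ (i + 1)) * w i) *
        ((QP q)⁻¹ ^ 2 * q ^ (i + 1) * pt q (q ^ (2 * (i + 1)))) = (QP q)⁻¹ ^ 2 *
      ((-1) ^ i * q ^ (i * (i + 1) / 2) * (1 - q ^ (i + 1)) *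
        (w i * q ^ (i + 1)) * pt q (q ^ (2 * (i + 1)))) := by ring
    rw [e] at h1
    exact h1
  have hT : ∑' p, f p = (QP q)⁻¹ ^ 2 * ∑' i : ℕ, (-1) ^ i * q ^ (i * (i + 1) / 2) *
      (1 - q ^ (i + 1)) * (w i * q ^ (i + 1)) * pt q (q ^ (2 * (i + 1))) := by
    rw [← tsum_mul_left]
    exact (hfs.hasSum.prod_fiberwise hrow).tsum_eq.symm
  have hD := diag hfs
  rw [hT] at hD
  refine hD.congr_fun fun c => ?_
  rw [Finset.mul_sum]
  apply Finset.sum_congr rfl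
  intro i hi
  rw [Finset.mem_range] at hi
  rw [hf]
  simp only
  have e1 : i + 1 + (c - i) = c + 1 := by omega
  have e2 : 2 * (i + 1) + (c - i) = c + 1 + i + 1 := by omega
  have e3 : c + 1 - (i + 1) = c - i := by omega
  unfold Ac
  rw [e1, e2, e3]
  ring

end

theorem maingf (hGfu : GfuStatement) (hYf : YfStatement) (hYf0 : Yf0Statement) :
    MaingfStatement := by
  intro q hq0 hq
  refine ⟨tk_summable hq, fun m => ?_, ?_⟩
  · have h1 := (hGfu m q hq).2.1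
    have h2 := gen hq (fun i => q ^ ((i + 1) * m)) (fun i => by
      rw [← pow_add]; exact norm_pow_le_one' hq _)
    have e1 : ∑' c : ℕ, q ^ (c + 1) * Yf q (c + 1) m = (QP q)⁻¹ ^ 2 * Th q (m + 1) := by
      have e2 : ∀ c : ℕ, q ^ (c + 1) * Yf q (c + 1) m
          = q ^ (c + 1) * ∑ i ∈ Finset.range (c + 1), Ac q (c + 1) i * q ^ ((i + 1) * m) := by
        intro c
        rw [hYf q hq0 hq (c + 1) m (by omega)]
      rw [tsum_congr e2, h2.tsum_eq]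
      congr 1
      unfold Th
      apply tsum_congr
      intro i
      unfold tk
      have e3 : (i + 1) * (m + 1) + i * (i + 1) / 2 = i * (i + 1) / 2 + ((i + 1) * m + (i + 1)) := by
        ring
      rw [e3, pow_add q _ ((i + 1) * m + (i + 1)), pow_add q ((i + 1) * m)]
      ring
    rw [e1] at h1
    exact h1
  · have h1 := (hGfu 1 q hq).2.1
    have h2 := gen hq (fun i => (q ^ (i + 1))⁻¹) (fun i => by
      rw [inv_mul_cancel₀ (pow_ne_zero _ hq0), norm_one])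
    have h3 : HasSum (fun c : ℕ => if c = 0 then (1 : ℂ) else 0) 1 := hasSum_ite_eq 0 1
    have h4 := h2.sub h3
    have e1 : ∑' c : ℕ, q ^ (c + 1) * Yf q (c + 1) 1 = (QP q)⁻¹ ^ 2 * Th q 0 - 1 := by
      have e2 : ∀ c : ℕ, q ^ (c + 1) * Yf q (c + 1) 1
          = q ^ (c + 1) * (∑ i ∈ Finset.range (c + 1), Ac q (c + 1) i * (q ^ (i + 1))⁻¹)
            - (if c = 0 then (1 : ℂ) else 0) := by
        intro c
        rw [hYf q hq0 hq (c + 1) 1 (by omega)]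
        have e3 := hYf0 q hq0 hq (c + 1) (by omega)
        have e4 : ∑ i ∈ Finset.range (c + 1), Ac q (c + 1) i * q ^ ((i + 1) * 1)
            = (∑ i ∈ Finset.range (c + 1), Ac q (c + 1) i * (q ^ (i + 1))⁻¹)
              - (if c + 1 = 1 then q⁻¹ else 0) := by
          rw [← e3, ← Finset.sum_sub_distrib]
          apply Finset.sum_congr rfl
          intro i _
          rw [mul_one]
          ring
        rw [e4, mul_sub]
        congr 1
        rcases Nat.eq_zero_or_pos c with h | h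
        · subst h
          simp [hq0]
        · rw [if_neg (by omega), if_neg (by omega), mul_zero]
      rw [tsum_congr e2, h4.tsum_eq]
      congr 2
      unfold Th
      apply tsum_congr
      intro i
      unfold tk
      rw [inv_mul_cancel₀ (pow_ne_zero _ hq0), mul_zero, zero_add, mul_one]
    rw [e1] at h1
    exact_mod_cast h1

end Pool.Agent.Helper21_UR.H42
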