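import Pool.Agent.Helper21_UR.Stmts

/-!
SER: a q-series identity, from the two Euler identities.
-/

set_option autoImplicit false

namespace Pool.Agent.Helper21_UR.H42

open Complex MeasureTheory Filter Topology Pool.Agent.Helper21_UR

/-! ### Fubini for series -/

theorem fub {f : ℕ × ℕ → ℂ} (hf : Summable f) {g h : ℕ → ℂ}
    (hrow : ∀ r, HasSum (fun j => f (r, j)) (g r)) (hcol : ∀ j, HasSum (fun r => f (r, j)) (h j)) :
    HasSum g (∑' j, h j) ∧ Summable h := by
  have h1 : HasSum g (∑' p, f p) := hf.hasSum.prod_fiberwise hrow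
  have h2 : HasSum (fun p : ℕ × ℕ => f p.swap) (∑' p, f p) :=
    (Equiv.prodComm ℕ ℕ).hasSum_iff.2 hf.hasSum
  have h3 : HasSum h (∑' p, f p) := h2.prod_fiberwise hcol
  rw [h3.tsum_eq]
  exact ⟨h1, h3.summable⟩

/-- summation along the diagonals -/
theorem diag {f : ℕ × ℕ → ℂ} (hf : Summable f) :
    HasSum (fun c => ∑ i ∈ Finset.range (c + 1), f (i, c - i)) (∑' p, f p) := by
  have h1 := (Finset.HasAntidiagonal.sigmaAntidiagonalEquivProd (A := ℕ)).hasSum_iff.2 hf.hasSum
  have h2 := h1.sigma (g := fun c => ∑ i ∈ Finset.range (c + 1), f (i, c - i)) (by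
    intro c
    have h3 := hasSum_fintype (fun x : Finset.HasAntidiagonal.antidiagonal c => f (x : ℕ × ℕ))
    rw [Finset.sum_coe_sort (Finset.HasAntidiagonal.antidiagonal c) f,
      Finset.Nat.sum_antidiagonal_eq_sum_range_succ_mk] at h3
    exact h3)
  exact h2

/-! ### The products -/

section

variable {q : ℂ}

theorem one_sub_ne (hq : ‖q‖ < 1) (j : ℕ) : 1 - q ^ (j + 1) ≠ 0 := by
  rw [sub_ne_zero]
  intro h
  have h1 : ‖q ^ (j + 1)‖ < 1 := by
    rw [norm_pow]
    exact pow_lt_one₀ (norm_nonneg _) hq (by omega)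
  rw [← h, norm_one] at h1
  exact lt_irrefl _ h1

theorem qp_ne (hq : ‖q‖ < 1) (n : ℕ) : qp q n ≠ 0 :=
  Finset.prod_ne_zero_iff.2 fun j _ => one_sub_ne hq j

theorem qp_succ (q : ℂ) (n : ℕ) : qp q (n + 1) = qp q n * (1 - q ^ (n + 1)) :=
  Finset.prod_range_succ _ _

theorem qp_zero (q : ℂ) : qp q 0 = 1 := Finset.prod_range_zero _

theorem summable_q (hq : ‖q‖ < 1) : Summable fun n : ℕ => ‖-q ^ (n + 1)‖ := by
  simpa using (summable_nat_add_iff 1).mpr (summable_geometric_of_lt_one (norm_nonneg _) hq)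

theorem qp_tendsto (hq : ‖q‖ < 1) : Tendsto (qp q) atTop (𝓝 (QP q)) := by
  have h1 : Multipliable fun n : ℕ => 1 + -q ^ (n + 1) :=
    multipliable_one_add_of_summable (summable_q hq)
  have h2 : Multipliable fun n : ℕ => 1 - q ^ (n + 1) := by
    simpa only [sub_eq_add_neg] using h1
  exact h2.hasProd.tendsto_prod_nat

theorem QP_ne (hq : ‖q‖ < 1) : QP q ≠ 0 := by
  have h1 : ∏' n : ℕ, (1 + -q ^ (n + 1)) ≠ 0 := by
    apply tprod_one_add_ne_zero_of_summable
    · intro i
      rw [← sub_eq_add_neg]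
      exact one_sub_ne hq i
    · exact summable_q hq
  have h2 : QP q = ∏' n : ℕ, (1 + -q ^ (n + 1)) := by
    unfold QP
    simp only [sub_eq_add_neg]
  rw [h2]
  exact h1

theorem inv_bdd (hq : ‖q‖ < 1) : ∃ B : ℝ, 1 ≤ B ∧ ∀ n, ‖(qp q n)⁻¹‖ ≤ B := by
  have h1 : Tendsto (fun n => ‖(qp q n)⁻¹‖) atTop (𝓝 ‖(QP q)⁻¹‖) :=
    ((qp_tendsto hq).inv₀ (QP_ne hq)).norm
  obtain ⟨B, hB⟩ := h1.bddAbove_range
  refine ⟨max B 1, le_max_right _ _, fun n => ?_⟩
  exact (hB ⟨n, rfl⟩).trans (le_max_left _ _)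

/-! ### The Euler identities -/

theorem tri_ge (j : ℕ) : j ≤ j * (j + 1) / 2 := by
  rw [Nat.le_div_iff_mul_le (by norm_num)]
  rcases Nat.eq_zero_or_pos j with h | h
  · subst h; simp
  · nlinarith

theorem norm_pow_le {n m : ℕ} (hq : ‖q‖ < 1) (h : m ≤ n) : ‖q ^ n‖ ≤ ‖q‖ ^ m := by
  rw [norm_pow]
  exact pow_le_pow_of_le_one (norm_nonneg _) hq.le h

/-- the second Euler identity, at `x = q ^ (k + 1)` -/
theorem euler2 (hq : ‖q‖ < 1) (k : ℕ) :
    HasSum (fun r : ℕ => q ^ ((k + 1) * r) / qp q r) (qp q k / QP q) := by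
  obtain ⟨B, hB1, hB⟩ := inv_bdd hq
  have hB0 : 0 ≤ B := by linarith
  have hgeo : Summable fun r : ℕ => B * ‖q‖ ^ r :=
    (summable_geometric_of_lt_one (norm_nonneg _) hq).mul_left B
  have hbd : ∀ k r : ℕ, ‖q ^ ((k + 1) * r) / qp q r‖ ≤ B * ‖q‖ ^ r := by
    intro k r
    rw [div_eq_mul_inv, norm_mul, mul_comm]
    exact mul_le_mul (hB r) (norm_pow_le hq (by nlinarith)) (norm_nonneg _) hB0
  have hs : ∀ k : ℕ, Summable fun r : ℕ => q ^ ((k + 1) * r) / qp q r :=
    fun k => Summable.of_norm_bounded hgeo (hbd k)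
  set S : ℕ → ℂ := fun k => ∑' r : ℕ, q ^ ((k + 1) * r) / qp q r with hS
  -- functional equation
  have hfe : ∀ k, S (k + 1) = (1 - q ^ (k + 1)) * S k := by
    intro k
    have e1 : S k - S (k + 1) = ∑' r : ℕ, (q ^ ((k + 1) * r) / qp q r
        - q ^ ((k + 1 + 1) * r) / qp q r) := ((hs k).tsum_sub (hs (k + 1))).symm
    have hs' : Summable fun r : ℕ => (q ^ ((k + 1) * r) / qp q r
        - q ^ ((k + 1 + 1) * r) / qp q r) := (hs k).sub (hs (k + 1))
    have e2 : ∑' r : ℕ, (q ^ ((k + 1) * r) / qp q r - q ^ ((k + 1 + 1) * r) / qp q r)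
        = q ^ (k + 1) * S k := by
      rw [hs'.tsum_eq_zero_add, hS, ← tsum_mul_left]
      simp only [mul_zero, pow_zero, sub_self, zero_add]
      apply tsum_congr
      intro r
      rw [qp_succ]
      have h1 := qp_ne hq r
      have h2 := one_sub_ne hq r
      field_simp
      ring
    linear_combination -e1 + -e2
  have hk : ∀ k, S k = qp q k * S 0 := by
    intro k
    induction k with
    | zero => rw [qp_zero, one_mul]
    | succ k ih => rw [hfe, ih, qp_succ]; ring
  have hlim : Tendsto S atTop (𝓝 1) := by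
    have h1 : Tendsto (fun k : ℕ => ∑' r : ℕ, q ^ ((k + 1) * r) / qp q r) atTop
        (𝓝 (∑' r : ℕ, if r = 0 then (1 : ℂ) else 0)) := by
      apply tendsto_tsum_of_dominated_convergence hgeo
      · intro r
        rcases Nat.eq_zero_or_pos r with h | h
        · subst h
          simp only [mul_zero, pow_zero, qp_zero, div_one, if_true]
          exact tendsto_const_nhds
        · rw [if_neg h.ne']
          have h2 : Tendsto (fun k : ℕ => q ^ ((k + 1) * r)) atTop (𝓝 0) := by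
            have h3 : Tendsto (fun n : ℕ => q ^ n) atTop (𝓝 0) :=
              tendsto_pow_atTop_nhds_zero_of_norm_lt_one hq
            apply h3.comp
            apply tendsto_atTop_mono (f := fun k : ℕ => k) _ tendsto_id
            intro k
            nlinarith
          simpa using h2.div_const (qp q r)
      · exact Eventually.of_forall fun k r => hbd k r
    rw [tsum_ite_eq] at h1
    exact h1
  have h1 : Tendsto S atTop (𝓝 (QP q * S 0)) :=
    ((qp_tendsto hq).mul_const (S 0)).congr fun k => (hk k).symm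
  have h2 : QP q * S 0 = 1 := tendsto_nhds_unique h1 hlim
  have h3 : S 0 = (QP q)⁻¹ := by
    have := QP_ne hq
    field_simp
    rw [mul_comm]; exact h2
  have h4 : S k = qp q k / QP q := by rw [hk, h3, div_eq_mul_inv]
  rw [← h4]
  exact (hs k).hasSum

/-- the first Euler identity, at `x = q ^ (k + 1)` -/
theorem euler1 (hq : ‖q‖ < 1) (k : ℕ) :
    HasSum (fun j : ℕ => (-1) ^ j * q ^ (j * (j + 1) / 2 + k * j) / qp q j) (QP q / qp q k) := by
  obtain ⟨B, hB1, hB⟩ := inv_bdd hq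
  have hB0 : 0 ≤ B := by linarith
  have hgeo : Summable fun r : ℕ => B * ‖q‖ ^ r :=
    (summable_geometric_of_lt_one (norm_nonneg _) hq).mul_left B
  have hbd : ∀ k j : ℕ, ‖(-1) ^ j * q ^ (j * (j + 1) / 2 + k * j) / qp q j‖ ≤ B * ‖q‖ ^ j := by
    intro k j
    rw [div_eq_mul_inv, norm_mul, norm_mul, norm_pow, norm_neg, norm_one, one_pow, one_mul,
      mul_comm]
    refine mul_le_mul (hB j) (norm_pow_le hq ?_) (norm_nonneg _) hB0
    have := tri_ge j
    omega
  have hs : ∀ k : ℕ, Summable fun j : ℕ => (-1) ^ j * q ^ (j * (j + 1) / 2 + k * j) / qp q j :=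
    fun k => Summable.of_norm_bounded hgeo (hbd k)
  set T : ℕ → ℂ := fun k => ∑' j : ℕ, (-1) ^ j * q ^ (j * (j + 1) / 2 + k * j) / qp q j with hT
  have hfe : ∀ k, T k = (1 - q ^ (k + 1)) * T (k + 1) := by
    intro k
    have e1 : T k - T (k + 1) = ∑' j : ℕ, ((-1) ^ j * q ^ (j * (j + 1) / 2 + k * j) / qp q j
        - (-1) ^ j * q ^ (j * (j + 1) / 2 + (k + 1) * j) / qp q j) :=
      ((hs k).tsum_sub (hs (k + 1))).symm
    have hs' : Summable fun j : ℕ => ((-1) ^ j * q ^ (j * (j + 1) / 2 + k * j) / qp q j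
        - (-1) ^ j * q ^ (j * (j + 1) / 2 + (k + 1) * j) / qp q j) := (hs k).sub (hs (k + 1))
    have e2 : ∑' j : ℕ, ((-1) ^ j * q ^ (j * (j + 1) / 2 + k * j) / qp q j
        - (-1) ^ j * q ^ (j * (j + 1) / 2 + (k + 1) * j) / qp q j)
        = -q ^ (k + 1) * T (k + 1) := by
      rw [hs'.tsum_eq_zero_add, hT, ← tsum_mul_left]
      simp only [mul_zero, pow_zero, sub_self, zero_add]
      apply tsum_congr
      intro j
      rw [qp_succ]
      have h1 := qp_ne hq j
      have h2 := one_sub_ne hq j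
      have e3 : (j + 1) * (j + 1 + 1) / 2 = j * (j + 1) / 2 + (j + 1) := by
        have : (j + 1) * (j + 1 + 1) = j * (j + 1) + 2 * (j + 1) := by ring
        rw [this, Nat.add_mul_div_left _ _ (by norm_num)]
      rw [e3]
      have e4 : j * (j + 1) / 2 + (j + 1) + k * (j + 1)
          = (j * (j + 1) / 2 + (k + 1) * j) + (k + 1) := by ring
      have e5 : j * (j + 1) / 2 + (j + 1) + (k + 1) * (j + 1)
          = (j * (j + 1) / 2 + (k + 1) * j) + (k + 1) + (j + 1) := by ring
      rw [e4, e5, pow_add q _ (j + 1), pow_add q _ (k + 1), pow_succ (-1 : ℂ) j]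
      field_simp
      ring
    linear_combination e1 + e2
  have hk : ∀ k, qp q k * T k = T 0 := by
    intro k
    induction k with
    | zero => rw [qp_zero, one_mul]
    | succ k ih => rw [← ih, hfe k, qp_succ]; ring
  have hlim : Tendsto T atTop (𝓝 1) := by
    have h1 : Tendsto (fun k : ℕ => ∑' j : ℕ, (-1) ^ j * q ^ (j * (j + 1) / 2 + k * j) / qp q j)
        atTop (𝓝 (∑' j : ℕ, if j = 0 then (1 : ℂ) else 0)) := by
      apply tendsto_tsum_of_dominated_convergence hgeo
      · intro j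
        rcases Nat.eq_zero_or_pos j with h | h
        · subst h
          simp only [mul_zero, pow_zero, qp_zero, div_one, if_true, zero_mul, Nat.zero_div,
            add_zero, mul_one]
          exact tendsto_const_nhds
        · rw [if_neg h.ne']
          have h2 : Tendsto (fun k : ℕ => q ^ (j * (j + 1) / 2 + k * j)) atTop (𝓝 0) := by
            have h3 : Tendsto (fun n : ℕ => q ^ n) atTop (𝓝 0) :=
              tendsto_pow_atTop_nhds_zero_of_norm_lt_one hq
            apply h3.comp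
            apply tendsto_atTop_mono (f := fun k : ℕ => k) _ tendsto_id
            intro k
            have : k ≤ k * j := Nat.le_mul_of_pos_right k h
            omega
          have h4 := (h2.const_mul ((-1) ^ j)).div_const (qp q j)
          simpa using h4
      · exact Eventually.of_forall fun k r => hbd k r
    rw [tsum_ite_eq] at h1
    exact h1
  have h1 : Tendsto (fun k => qp q k * T k) atTop (𝓝 (QP q * 1)) := (qp_tendsto hq).mul hlim
  have h2 : T 0 = QP q := by
    have h3 : Tendsto (fun _ : ℕ => T 0) atTop (𝓝 (QP q * 1)) := by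
      refine h1.congr fun k => hk k
    rw [mul_one] at h3
    exact tendsto_nhds_unique tendsto_const_nhds h3
  have h4 : T k = QP q / qp q k := by
    rw [← h2, ← hk k]
    have := qp_ne hq k
    field_simp
  rw [← h4]
  exact (hs k).hasSum

/-! ### SER -/

theorem ser : SerStatement := by
  intro q hq i
  obtain ⟨B, hB1, hB⟩ := inv_bdd hq
  have hB0 : 0 ≤ B := by linarith
  have hQ := QP_ne hq
  set n : ℕ := 2 * (i + 1) with hn
  set f : ℕ × ℕ → ℂ := fun p => (QP q)⁻¹ * q ^ (i + 1) * (q ^ p.1 / qp q p.1) *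
    ((-1) ^ p.2 * q ^ (p.2 * (p.2 + 1) / 2 + (n + p.1) * p.2) / qp q p.2) with hf
  have hbd : ∀ p : ℕ × ℕ, ‖f p‖ ≤ (B * B * B) * (‖q‖ ^ p.1 * ‖q‖ ^ p.2) := by
    rintro ⟨r, j⟩
    have hPB : ‖(QP q)⁻¹‖ ≤ B := by
      have h1 : Tendsto (fun n => ‖(qp q n)⁻¹‖) atTop (𝓝 ‖(QP q)⁻¹‖) :=
        ((qp_tendsto hq).inv₀ hQ).norm
      exact le_of_tendsto' h1 hB
    have h1 : ‖q ^ (i + 1)‖ ≤ 1 := by
      rw [norm_pow]; exact pow_le_one₀ (norm_nonneg _) hq.le
    have h2 : ‖q ^ r / qp q r‖ ≤ B * ‖q‖ ^ r := by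
      rw [div_eq_mul_inv, norm_mul, mul_comm]
      exact mul_le_mul (hB r) (norm_pow_le hq le_rfl) (norm_nonneg _) hB0
    have h3 : ‖(-1) ^ j * q ^ (j * (j + 1) / 2 + (n + r) * j) / qp q j‖ ≤ B * ‖q‖ ^ j := by
      rw [div_eq_mul_inv, norm_mul, norm_mul, norm_pow, norm_neg, norm_one, one_pow, one_mul,
        mul_comm]
      refine mul_le_mul (hB j) (norm_pow_le hq ?_) (norm_nonneg _) hB0
      have := tri_ge j
      omega
    rw [hf]
    simp only
    rw [norm_mul, norm_mul, norm_mul]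
    calc ‖(QP q)⁻¹‖ * ‖q ^ (i + 1)‖ * ‖q ^ r / qp q r‖ *
          ‖(-1) ^ j * q ^ (j * (j + 1) / 2 + (n + r) * j) / qp q j‖
        ≤ B * 1 * (B * ‖q‖ ^ r) * (B * ‖q‖ ^ j) := by gcongr
      _ = (B * B * B) * (‖q‖ ^ r * ‖q‖ ^ j) := by ring
  have hfs : Summable f := by
    apply Summable.of_norm_bounded _ hbd
    apply Summable.mul_left
    exact Summable.mul_of_nonneg (summable_geometric_of_lt_one (norm_nonneg _) hq)
      (summable_geometric_of_lt_one (norm_nonneg _) hq)
      (fun _ => by positivity) (fun _ => by positivity)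
  have hrow : ∀ r, HasSum (fun j => f (r, j)) (q ^ (i + 1 + r) / (qp q r * qp q (n + r))) := by
    intro r
    have h1 := (euler1 hq (n + r)).mul_left ((QP q)⁻¹ * q ^ (i + 1) * (q ^ r / qp q r))
    have e : (QP q)⁻¹ * q ^ (i + 1) * (q ^ r / qp q r) * (QP q / qp q (n + r))
        = q ^ (i + 1 + r) / (qp q r * qp q (n + r)) := by
      have h2 := qp_ne hq r
      have h3 := qp_ne hq (n + r)
      rw [pow_add]
      field_simp
      ring
    rw [e] at h1
    exact h1
  have hcol : ∀ j, HasSum (fun r => f (r, j))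
      ((QP q)⁻¹ ^ 2 * q ^ (i + 1) * ((-1) ^ j * (q ^ n) ^ j * q ^ (j * (j + 1) / 2))) := by
    intro j
    have h1 := (euler2 hq j).mul_left ((QP q)⁻¹ * q ^ (i + 1) *
      ((-1) ^ j * q ^ (j * (j + 1) / 2 + n * j) / qp q j))
    have e : (QP q)⁻¹ * q ^ (i + 1) * ((-1) ^ j * q ^ (j * (j + 1) / 2 + n * j) / qp q j)
        * (qp q j / QP q)
        = (QP q)⁻¹ ^ 2 * q ^ (i + 1) * ((-1) ^ j * (q ^ n) ^ j * q ^ (j * (j + 1) / 2)) := by
      have h2 := qp_ne hq j
      rw [← pow_mul, pow_add]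
      field_simp
      ring
    rw [e] at h1
    refine h1.congr_fun fun r => ?_
    rw [hf]
    simp only
    have e2 : j * (j + 1) / 2 + (n + r) * j = (j * (j + 1) / 2 + n * j) + r * j := by ring
    have e3 : (j + 1) * r = r * j + r := by ring
    rw [e2, e3, pow_add, pow_add]
    ring
  have h1 := (fub hfs hrow hcol).1
  rw [tsum_mul_left] at h1
  exact h1

end

end Pool.Agent.Helper21_UR.H42
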